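import Pool.Agent.H94_rl.Geom4

/-!
# The degree of the dual variety of a reciprocal linear space
-/

namespace Pool.Agent.Results.MP_0aec2a_ag.DualDegree

open Pool.Agent.H94rl

/-- Let the linear forms `ℓ_0, ..., ℓ_n` on `ℂ^(d+1)` span the dual space and let their matroid
`M(L)` be connected.  Then the dual variety of the reciprocal linear space `L⁻¹` is a hypersurface
of degree `2 ^ d * β(L)`.  Moreover the smooth points of `L⁻¹` are its points with tangent space
of dimension `d + 1` (as a linear subspace of `ℂ^(n+1)`). -/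
theorem result : ∀ (d n : ℕ) (ℓ : Fin (n + 1) → Module.Dual ℂ (Fin (d + 1) → ℂ)),
    Submodule.span ℂ (Set.range ℓ) = ⊤ → Geo.Connected ℓ →
    (∃ D : ℕ, (D : ℤ) = 2 ^ d * Geo.betaInv ℓ ∧
      Geo.IsHypersurfaceOfDegree (Geo.dualVariety (Geo.recip ℓ)) D) ∧
    (∀ y, Geo.IsSmoothPt (Geo.recip ℓ) y ↔
      y ∈ Geo.recip ℓ ∧ Module.finrank ℂ (Geo.tangentSpace (Geo.recip ℓ) y) = d + 1) :=
  fun _ _ _ hspan hconn =>
    ⟨Geo.dual_recip hspan hconn, fun _ => Geo.smooth_iff hspan (Geo.forms_ne_zero hspan hconn)⟩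

end Pool.Agent.Results.MP_0aec2a_ag.DualDegree
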